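import Pool.Agent.Lib.MP_16fe43_al.Statement

/-!
# Tree hierarchies (MP_16fe43_al): the definitions

This file contains only the definitions of the class of groups in the hand-in `MP_16fe43_al.TreeHierarchies`; the
`K`-groups are defined in `Pool.Agent.Lib.MP_16fe43_al.Statement`.
-/

set_option autoImplicit false

namespace Pool.Agent.Lib.THY

open Matrix (vecMul)
open Pool.Agent.Lib.BHS16 (Wh)

/-- The row vectors killed by `A` are the combinations of the rows of `B`: exactness of
`R^K → R^I → R^J`, `t ↦ t B`, `v ↦ v A`. -/
def RowExact {R : Type} [Ring R] {I J K : Type} [Fintype I] [Fintype K] (B : Matrix K I R)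
    (A : Matrix I J R) : Prop :=
  ∀ v : I → R, vecMul v A = 0 ↔ ∃ t : K → R, v = vecMul t B

/-- The kernel of the homomorphism `v ↦ v A` of free modules of row vectors has a resolution of length at most `k` by
finitely generated free modules. -/
def HasRes (R : Type) [Ring R] : ℕ → (m n : ℕ) → Matrix (Fin m) (Fin n) R → Prop
  | 0, m, _, A => ∀ v : Fin m → R, vecMul v A = 0 → v = 0
  | k + 1, m, _, A => ∃ (a : ℕ) (B : Matrix (Fin a) (Fin m) R), RowExact B A ∧ HasRes R k a m B

/-- Every finitely presented left `R`-module (the cokernel of a matrix `A`) has a finite resolution by finitely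
generated free modules. -/
def FFR (R : Type) [Ring R] : Prop :=
  ∀ (m n : ℕ) (A : Matrix (Fin m) (Fin n) R), ∃ k, HasRes R k m n A

/-- The group `E` is stably regular: for every subgroup `D` of `E × ℤ^k`, `k ≥ 0`, every finitely presented
`ℤ[D]`-module has a finite resolution by finitely generated free modules. -/
def StReg (E : Type) [Group E] : Prop :=
  ∀ (k : ℕ) (D : Subgroup (E × (Fin k → Multiplicative ℤ))), FFR (MonoidAlgebra ℤ D)

/-- The group `E` is locally virtually stably regular: every finitely generated subgroup of `E` has a stably regular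
subgroup of finite index. -/
def LVR (E : Type) [Group E] : Prop :=
  ∀ H : Subgroup E, H.FG → ∃ M : Subgroup H, M.FiniteIndex ∧ StReg M

/-- **The class `C`**: the smallest class of groups such that a group `G` is in the class if
* `base`: `Wh(L) = 0` for all subgroups `L` of `G × ℤ^k`, `k ≥ 0`; or
* `oneRel`: a subgroup of finite index of `G` embeds in a one-relator group; or
* `step`: a subgroup `K` of finite index of `G` acts by automorphisms on finitely many trees `T i` with vertex sets
  `X i` such that, for all vertices `x i` of `T i` and all subgroups `L` of `G` with a subgroup `M` of finite index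
  which lies in `K` and fixes every `x i`, the group `L` is in the class and, if `M` fixes also a neighbour `y` of some
  `x i`, `L` is locally virtually stably regular; or
* `loc`: all finitely generated subgroups of `G` are in the class. -/
inductive Cls : ∀ (G : Type) [Group G], Prop
  | base (G : Type) [Group G]
      (h : ∀ (k : ℕ) (L : Subgroup (G × (Fin k → Multiplicative ℤ))), Subsingleton (Wh L)) : Cls G
  | oneRel (G : Type) [Group G] (K : Subgroup G) (hK : K.FiniteIndex) (X : Type) (r : FreeGroup X)
      (f : K →* FreeGroup X ⧸ Subgroup.normalClosure ({r} : Set (FreeGroup X)))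
      (hf : Function.Injective f) : Cls G
  | step (G : Type) [Group G] (K : Subgroup G) (hK : K.FiniteIndex) (m : ℕ) (X : Fin m → Type)
      [∀ i, MulAction K (X i)] (T : ∀ i, SimpleGraph (X i)) (hT : ∀ i, (T i).IsTree)
      (hadj : ∀ i (g : K) (u v : X i), (T i).Adj u v → (T i).Adj (g • u) (g • v))
      (hv : ∀ (x : ∀ i, X i) (L : Subgroup G) (M : Subgroup L) (_ : M.FiniteIndex)
        (hMK : ∀ g ∈ M, (g : G) ∈ K) (_ : ∀ g (hg : g ∈ M) i, (⟨g, hMK g hg⟩ : K) • x i = x i),
        Cls L)
      (he : ∀ (x : ∀ i, X i) (i : Fin m) (y : X i) (_ : (T i).Adj (x i) y)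
        (L : Subgroup G) (M : Subgroup L) (_ : M.FiniteIndex)
        (hMK : ∀ g ∈ M, (g : G) ∈ K) (_ : ∀ g (hg : g ∈ M) j, (⟨g, hMK g hg⟩ : K) • x j = x j)
        (_ : ∀ g (hg : g ∈ M), (⟨g, hMK g hg⟩ : K) • y = y), LVR L) : Cls G
  | loc (G : Type) [Group G] (h : ∀ H : Subgroup G, H.FG → Cls H) : Cls G

end Pool.Agent.Lib.THY
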