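import Pool.Agent.Lib.THY.Defs
import Pool.Agent.Lib.PTX.YCont
import Pool.Agent.Lib.MagH.VXc

/-!
# Tree hierarchies (MP_16fe43_al): the theorem

`cls_low`: the groups `G × ℤ^k` have trivial low `K`-groups for all torsion-free groups `G` in the class `Cls`.
`cls_of_vy`: the class contains the class `VY` of `Pool.Agent.Lib.PTX.YCls`.
-/

set_option autoImplicit false

namespace Pool.Agent.Lib.THY

open Pool.Agent.Lib.BHS16 (Wh TorsionFree LowKVanishing)
open Pool.Agent.Lib.PTX (PW VY pw_base pw_step pw_loc pw_reg vy_pw vy_of_vx)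

theorem hasRes_iff (R : Type) [Ring R] (k : ℕ) : ∀ (m n : ℕ) (A : Matrix (Fin m) (Fin n) R),
    HasRes R k m n A ↔ Pool.Agent.Lib.MP_16fe43_al.HasRes R k m n A := by
  induction k with
  | zero => exact fun m n A => Iff.rfl
  | succ k ih =>
    intro m n A
    constructor
    · rintro ⟨a, B, h1, h2⟩
      exact ⟨a, B, h1, (ih a m B).1 h2⟩
    · rintro ⟨a, B, h1, h2⟩
      exact ⟨a, B, h1, (ih a m B).2 h2⟩

theorem ffr_iff (R : Type) [Ring R] : FFR R ↔ Pool.Agent.Lib.MP_16fe43_al.FFR R :=
  ⟨fun h m n A => (h m n A).imp fun k hk => (hasRes_iff R k m n A).1 hk,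
    fun h m n A => (h m n A).imp fun k hk => (hasRes_iff R k m n A).2 hk⟩

theorem stReg_iff (E : Type) [Group E] : StReg E ↔ Pool.Agent.Lib.MP_16fe43_al.StReg E :=
  ⟨fun h k D => (ffr_iff _).1 (h k D), fun h k D => (ffr_iff _).2 (h k D)⟩

theorem lvr_iff (E : Type) [Group E] : LVR E ↔ Pool.Agent.Lib.PTX.LVR E :=
  ⟨fun h H hH => (h H hH).imp fun _ hM => ⟨hM.1, (stReg_iff _).1 hM.2⟩,
    fun h H hH => (h H hH).imp fun _ hM => ⟨hM.1, (stReg_iff _).2 hM.2⟩⟩

theorem pw_cls {G : Type} [Group G] (h : Cls G) : TorsionFree G → PW G := by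
  induction h with
  | base G h => exact fun _ => pw_base h
  | oneRel G K hK X r f hf =>
    exact fun tf => vy_pw (vy_of_vx (Pool.Agent.Lib.MagH.vx_oneRel X r) 0 G tf K hK
      ((MonoidHom.inl _ (Fin 0 → Multiplicative ℤ)).comp f)
      fun _ _ hab => hf (congrArg Prod.fst hab)) tf
  | step G K hK m X T hT hadj hv he ih =>
    intro tf
    have key : ∀ (L : Subgroup G) (N : Subgroup K), (N.map K.subtype).relIndex L ≠ 0 →
        ∃ (M : Subgroup L) (_ : M.FiniteIndex) (hMK : ∀ g ∈ M, (g : G) ∈ K),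
          ∀ g (hg : g ∈ M), (⟨g, hMK g hg⟩ : K) ∈ N := by
      intro L N h
      refine ⟨(N.map K.subtype).subgroupOf L, ⟨h⟩, fun g hg => ?_, fun g hg => ?_⟩
      · exact Subgroup.map_subtype_le N hg
      · obtain ⟨n, hn, hng⟩ := Subgroup.mem_map.1 (Subgroup.mem_subgroupOf.1 hg)
        have h1 : (⟨g, Subgroup.map_subtype_le N hg⟩ : K) = n := Subtype.ext hng.symm
        rw [h1]
        exact hn
    refine pw_step tf K X T hT hadj (fun L N x h1 h2 => ?_) (fun L N x i y hy h1 h2 => ?_)
    · obtain ⟨M, hM, hMK, hMN⟩ := key L N h1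
      exact ih x L M hM hMK (fun g hg i => h2 _ (hMN g hg) i)
        (TorsionFree.of_injective L.subtype L.subtype_injective tf)
    · obtain ⟨M, hM, hMK, hMN⟩ := key L N h1
      exact (lvr_iff L).1 (he x i y hy L M hM hMK (fun g hg j => (h2 _ (hMN g hg)).1 j)
        fun g hg => (h2 _ (hMN g hg)).2)
  | loc G h ih =>
    exact fun tf => pw_loc fun H hH =>
      ih H hH (TorsionFree.of_injective H.subtype H.subtype_injective tf)

/-- **the theorem** -/
theorem cls_low {G : Type} [Group G] (tf : TorsionFree G) (h : Cls G) (k : ℕ) :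
    LowKVanishing (G × (Fin k → Multiplicative ℤ)) :=
  (pw_cls h tf).stV' k

/-- the semantic clause -/
theorem cls_of_pw {G : Type} [Group G] (h : PW G) : Cls G :=
  Cls.base G fun k L => h k L L.subtype L.subtype_injective

/-- stably regular groups all subgroups of which have trivial Whitehead group belong to the class -/
theorem cls_reg {G : Type} [Group G] (hr : StReg G) (hw : ∀ L : Subgroup G, Subsingleton (Wh L)) :
    Cls G :=
  cls_of_pw (pw_reg ((stReg_iff G).1 hr) hw)

/-- the class `VY` is contained in the class `Cls` -/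
theorem cls_of_vy {G : Type} [Group G] (h : VY G) : Cls G := by
  induction h with
  | base G h => exact Cls.base G h
  | reg G hr hw => exact cls_of_pw (pw_reg hr hw)
  | step G K hK m X T hT hadj hv he ih =>
    have key : ∀ (L : Subgroup G) (M : Subgroup L), M.FiniteIndex →
        ∀ hMK : ∀ g ∈ M, (g : G) ∈ K, ∃ N : Subgroup K, (N.map K.subtype).relIndex L ≠ 0 ∧
          ∀ n ∈ N, ∃ (g : L) (hg : g ∈ M), n = ⟨g, hMK g hg⟩ := by
      intro L M hM hMK
      have h1 : (M.map L.subtype) ≤ K := by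
        rintro _ ⟨g, hg, rfl⟩
        exact hMK g hg
      refine ⟨(M.map L.subtype).subgroupOf K, ?_, ?_⟩
      · rw [Subgroup.subgroupOf_map_subtype, inf_eq_left.2 h1]
        change ((M.map L.subtype).subgroupOf L).index ≠ 0
        have h2 : (M.map L.subtype).subgroupOf L = M :=
          Subgroup.comap_map_eq_self_of_injective L.subtype_injective M
        rw [h2]
        exact hM.index_ne_zero
      · intro n hn
        obtain ⟨g, hg, hgn⟩ := Subgroup.mem_map.1 (Subgroup.mem_subgroupOf.1 hn)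
        exact ⟨g, hg, Subtype.ext hgn.symm⟩
    refine Cls.step G K hK m X T hT hadj (fun x L M hM hMK hfix => ?_)
      (fun x i y hy L M hM hMK hfix hfy => ?_)
    · obtain ⟨N, h1, h2⟩ := key L M hM hMK
      refine ih L N x h1 fun n hn i => ?_
      obtain ⟨g, hg, rfl⟩ := h2 n hn
      exact hfix g hg i
    · obtain ⟨N, h1, h2⟩ := key L M hM hMK
      refine (lvr_iff L).2 (he L N x i y hy h1 fun n hn => ?_)
      obtain ⟨g, hg, rfl⟩ := h2 n hn
      exact ⟨fun j => hfix g hg j, hfy g hg⟩
  | loc G h ih => exact Cls.loc G ih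

end Pool.Agent.Lib.THY
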