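import Pool.Agent.Lib.THY.Main
import Pool.Agent.Lib.MagH.VXc

/-!
# Tree hierarchies (MP_16fe43_al): one-relator groups

`cls_oneRel`: the torsion-free groups with a subgroup of finite index which embeds in a one-relator group belong to
the class `Cls`.
-/

set_option autoImplicit false

namespace Pool.Agent.Lib.THY

open Pool.Agent.Lib.BHS16 (TorsionFree LowKVanishing)
open Pool.Agent.Lib.PTX (VX vy_of_vx)

theorem cls_of_vx {K : Type} [Group K] (h : VX K) {G : Type} [Group G] (tf : TorsionFree G)
    (N : Subgroup G) (hN : N.FiniteIndex) (f : N →* K) (hf : Function.Injective f) : Cls G :=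
  cls_of_vy (vy_of_vx h 0 G tf N hN ((MonoidHom.inl K (Fin 0 → Multiplicative ℤ)).comp f)
    fun _ _ hab => hf (congrArg Prod.fst hab))

theorem cls_oneRel {G : Type} [Group G] (tf : TorsionFree G) (N : Subgroup G)
    (hN : N.FiniteIndex) (X : Type) (r : FreeGroup X)
    (f : N →* FreeGroup X ⧸ Subgroup.normalClosure ({r} : Set (FreeGroup X)))
    (hf : Function.Injective f) : Cls G :=
  cls_of_vx (Pool.Agent.Lib.MagH.vx_oneRel X r) tf N hN f hf

end Pool.Agent.Lib.THY
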